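import Pool.Agent.H74.GA.RRA

/-!
Row RRC of the board ga: convolution at infinity preserves the cusp forms (helper74).
-/

set_option autoImplicit false

namespace Pool.Agent.H74.GA

open MeasureTheory Set Filter Topology
open Pool.Agent.H34.GM Pool.Agent.H34.GZ Pool.Agent.H34.GU Pool.Agent.H34.GA

theorem det_one_nk {m : ℕ} (c : ℝ) (k : ℕ) (u : V m) : (1 + c • nk (m := m) k u).det = 1 := by
  have hlow : ∀ s t : Fin m, s < t → (1 + c • nk (m := m) k u) s t = 0 := by
    intro s t hst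
    have h2 : ¬ ((t : ℕ) < k ∧ k ≤ (s : ℕ)) := by
      intro h3
      have h4 : (s : ℕ) < (t : ℕ) := hst
      omega
    have h3 : nk (m := m) k u s t = 0 := if_neg h2
    show (1 : Mat m) s t + c * nk (m := m) k u s t = 0
    rw [h3, Matrix.one_apply_ne hst.ne, mul_zero, add_zero]
  rw [Matrix.det_of_isLowerTriangular _ (fun s t hst => hlow s t hst)]
  apply Finset.prod_eq_one
  intro s _
  have h2 : ¬ ((s : ℕ) < k ∧ k ≤ (s : ℕ)) := by omega
  have h3 : nk (m := m) k u s s = 0 := if_neg h2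
  show (1 : Mat m) s s + c * nk (m := m) k u s s = 1
  rw [h3, Matrix.one_apply_eq, mul_zero, add_zero]

theorem nk_cont (m k : ℕ) : Continuous (fun u : V m => nk (m := m) k u) := by
  refine continuous_matrix (fun i j => ?_)
  show Continuous (fun u : V m => if (j : ℕ) < k ∧ k ≤ (i : ℕ) then u i j else 0)
  by_cases h : (j : ℕ) < k ∧ k ≤ (i : ℕ)
  · simp only [if_pos h]
    fun_prop
  · simp only [if_neg h]
    exact continuous_const

/-- the unipotent integral of a convolution -/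
theorem rr_cusp (hM : T_MSR) (hH : T_HAR) {m N : ℕ} (hm1 : 1 ≤ m) {k : Mat m → ℂ} (hk : Tg m k)
    {r : ℝ} (hr : 0 < r) {F : Mat m → VN m N → ℂ} {x : VN m N}
    (hF : ContinuousOn (fun g => F g x) {g | g.det ≠ 0}) {B : ℝ}
    (hB : ∀ g : Mat m, g.det ≠ 0 → ‖F g x‖ ≤ B) (j : ℕ)
    (hc : ∀ g : Mat m, g.det ≠ 0 →
      ∫ u in Set.Icc (0 : V m) 1, F ((1 + (N : ℝ) • nk j u) * g) x = 0)
    {g : Mat m} (hg : g.det ≠ 0) :
    ∫ u in Set.Icc (0 : V m) 1, Rr k r F ((1 + (N : ℝ) • nk j u) * g) x = 0 := by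
  obtain ⟨-, -, -, -, hsf, hSh, -, -⟩ := hM.1 m
  obtain ⟨M, hM0, hMb⟩ := tg_bd hk
  obtain ⟨c, hc0, hs⟩ := tg_sup hm1 hk hr
  have hB0 : 0 ≤ B := (norm_nonneg _).trans (hB g hg)
  have hgu : ∀ u : V m, ((1 + (N : ℝ) • nk (m := m) j u) * g).det ≠ 0 := by
    intro u
    rw [Matrix.det_mul, det_one_nk, one_mul]
    exact hg
  have hIc : MeasurableSet (Set.Icc (0 : V m) 1) := isClosed_Icc.measurableSet
  set f : V m → V m → ℂ := fun u z => k ((r⁻¹ * (aN (mt z))⁻¹) • mt z) *
    F ((1 + (N : ℝ) • nk j u) * g * (mt z)⁻¹) x with hf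
  have hfin : IsFiniteMeasure ((volume : Measure (V m)).restrict (Set.Icc (0 : V m) 1)) :=
    ⟨by rw [Measure.restrict_apply_univ]; exact isCompact_Icc.measure_lt_top⟩
  have hint : Integrable (Function.uncurry f)
      (((volume : Measure (V m)).restrict (Set.Icc (0 : V m) 1)).prod
        ((hm m).restrict (Shell m))) := by
    have hb := (rr_maj hH hm1 hc0 (M * B)).comp_snd
      ((volume : Measure (V m)).restrict (Set.Icc (0 : V m) 1))
    refine Integrable.mono' hb ?_ ?_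
    · rw [Measure.prod_restrict]
      have h1 : Measurable (fun p : V m × V m => k ((r⁻¹ * (aN (mt p.2))⁻¹) • mt p.2)) :=
        (th1_meas hM hk.cont r⁻¹).comp measurable_snd
      refine (h1.aestronglyMeasurable).mul ?_
      have h2 : ContinuousOn (fun p : V m × V m =>
          F ((1 + (N : ℝ) • nk j p.1) * g * (mt p.2)⁻¹) x)
          (Set.Icc (0 : V m) 1 ×ˢ Shell m) := by
        refine ContinuousOn.comp (g := fun w : Mat m => F w x) (t := {g | g.det ≠ 0}) hF ?_ ?_
        · have h3 : Continuous (fun p : V m × V m => (1 + (N : ℝ) • nk (m := m) j p.1) * g) := by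
            have h4 := (nk_cont m j).comp (continuous_fst : Continuous (fun p : V m × V m => p.1))
            have h5 : Continuous (fun p : V m × V m => nk (m := m) j p.1) := h4
            fun_prop
          have h6 : ContinuousOn (fun p : V m × V m => (1 : Mat m) * (mt p.2)⁻¹)
              (Set.Icc (0 : V m) 1 ×ˢ Shell m) := by
            refine ContinuousOn.comp (g := fun z : V m => (1 : Mat m) * (mt z)⁻¹)
              (t := {z | (mt z).det ≠ 0}) (cont_inv m 1) continuous_snd.continuousOn ?_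
            intro p hp
            exact th1_det_ne hm1 hp.2
          have h7 := h3.continuousOn.mul h6
          refine h7.congr ?_
          intro p hp
          show (1 + (N : ℝ) • nk (m := m) j p.1) * g * (mt p.2)⁻¹ =
            (1 + (N : ℝ) • nk (m := m) j p.1) * g * (1 * (mt p.2)⁻¹)
          rw [one_mul]
        · intro p hp
          exact det_nz (hgu p.1) (th1_det_ne hm1 hp.2)
      exact h2.aestronglyMeasurable (hIc.prod hSh)
    · rw [Measure.prod_restrict]
      refine (ae_restrict_iff' (hIc.prod hSh)).2 (Filter.Eventually.of_forall fun p hp => ?_)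
      show ‖k ((r⁻¹ * (aN (mt p.2))⁻¹) • mt p.2) *
        F ((1 + (N : ℝ) • nk j p.1) * g * (mt p.2)⁻¹) x‖ ≤
        (th1K m c).indicator (fun _ => M * B) p.2
      by_cases h1 : k ((r⁻¹ * (aN (mt p.2))⁻¹) • mt p.2) = 0
      · rw [h1, zero_mul, norm_zero]
        exact Set.indicator_nonneg (fun _ _ => mul_nonneg hM0 hB0) _
      · rw [Set.indicator_of_mem (hs p.2 hp.2 h1), norm_mul]
        exact mul_le_mul (hMb _) (hB _ (det_nz (hgu p.1) (th1_det_ne hm1 hp.2)))
          (norm_nonneg _) hM0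
  show ∫ u in Set.Icc (0 : V m) 1, ∫ z in Shell m, f u z ∂(hm m) = 0
  rw [integral_integral_swap hint]
  have h8 : ∀ z ∈ Shell m, ∫ u in Set.Icc (0 : V m) 1, f u z = 0 := by
    intro z hz
    simp only [hf]
    rw [integral_const_mul]
    have h9 := hc (g * (mt z)⁻¹) (det_nz hg (th1_det_ne hm1 hz))
    have h10 : ∫ u in Set.Icc (0 : V m) 1, F ((1 + (N : ℝ) • nk j u) * g * (mt z)⁻¹) x =
        ∫ u in Set.Icc (0 : V m) 1, F ((1 + (N : ℝ) • nk j u) * (g * (mt z)⁻¹)) x := by
      refine integral_congr_ae (Filter.Eventually.of_forall fun u => ?_)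
      show F ((1 + (N : ℝ) • nk j u) * g * (mt z)⁻¹) x =
        F ((1 + (N : ℝ) • nk j u) * (g * (mt z)⁻¹)) x
      rw [Matrix.mul_assoc]
    rw [h10, h9, mul_zero]
  rw [setIntegral_congr_fun hSh (g := fun _ => (0 : ℂ)) h8, integral_zero]

theorem pf_RRC : T_MSR → T_HAR → T_RRA → T_RRC := by
  intro hM hH hR m N _ T D hS F lam hF k hk
  have hm1 := hS.one_le
  obtain ⟨-, -, -, -, -, hSh, -, -⟩ := hM.1 m
  obtain ⟨B, hB⟩ := hF.bdd
  refine ⟨hR m N T D hS F lam hF.toHecA k hk, ?_, ?_⟩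
  · intro v hv g hg
    show ∑ y, psn N (dt v y) * ∫ z in Shell m, k (((1 : ℝ)⁻¹ * (aN (mt z))⁻¹) • mt z) *
        F (g * (mt z)⁻¹) y ∂(hm m) = 0
    have h1 : ∀ y : VN m N, psn N (dt v y) * ∫ z in Shell m,
        k (((1 : ℝ)⁻¹ * (aN (mt z))⁻¹) • mt z) * F (g * (mt z)⁻¹) y ∂(hm m) =
        ∫ z in Shell m, psn N (dt v y) *
          (k (((1 : ℝ)⁻¹ * (aN (mt z))⁻¹) • mt z) * F (g * (mt z)⁻¹) y) ∂(hm m) :=
      fun y => (integral_const_mul _ _).symm
    rw [Finset.sum_congr rfl (fun y _ => h1 y), ← integral_finsetSum _ (fun y _ =>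
      (rr_int hM hH hm1 hk one_pos (hF.cont y) (fun g hg => hB g y hg) hg).const_mul _)]
    rw [setIntegral_congr_fun hSh (g := fun _ => (0 : ℂ)) ?_, integral_zero]
    intro z hz
    have h2 := hF.prim v hv _ (det_nz hg (th1_det_ne hm1 hz))
    show ∑ y, psn N (dt v y) * (k (((1 : ℝ)⁻¹ * (aN (mt z))⁻¹) • mt z) *
      F (g * (mt z)⁻¹) y) = 0
    have h3 : ∑ y, psn N (dt v y) * (k (((1 : ℝ)⁻¹ * (aN (mt z))⁻¹) • mt z) *
        F (g * (mt z)⁻¹) y) = k (((1 : ℝ)⁻¹ * (aN (mt z))⁻¹) • mt z) *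
        ∑ y, psn N (dt v y) * F (g * (mt z)⁻¹) y := by
      rw [Finset.mul_sum]
      exact Finset.sum_congr rfl (fun y _ => by ring)
    rw [h3, h2, mul_zero]
  · intro j hj0 hjm g x hg
    exact rr_cusp hM hH hm1 hk one_pos (hF.cont x) (fun g hg => hB g x hg) j
      (fun g hg => hF.cusp j hj0 hjm g x hg) hg

end Pool.Agent.H74.GA
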